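import Pool.Agent.helper50.MA.SpecF

set_option autoImplicit false

open MeasureTheory Set Filter Topology
open scoped ContDiff Real

namespace MAP

noncomputable section

theorem F10_int {X : Type} [TopologicalSpace X] [CompactSpace X] [MeasurableSpace X] [BorelSpace X]
    (ν : Measure X) [IsFiniteMeasure ν] {h : X → ℝ} (hh : Continuous h) : Integrable h ν :=
  hh.integrable_of_hasCompactSupport (HasCompactSupport.of_compactSpace h)

/-- integral comparison for a nonnegative continuous function supported in `A` -/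
theorem F10_cmp {X : Type} [TopologicalSpace X] [CompactSpace X] [MeasurableSpace X] [BorelSpace X]
    (ν ν' : Measure X) [IsFiniteMeasure ν] [IsFiniteMeasure ν'] (A : Set X) (hA : MeasurableSet A)
    (c c' : ℝ) (hc : 0 ≤ c) (hc' : 0 ≤ c')
    (hle : ∀ B, MeasurableSet B → B ⊆ A → c * ν.real B ≤ c' * ν'.real B)
    {h : X → ℝ} (hh : Continuous h) (h0 : ∀ x, 0 ≤ h x) (hz : ∀ x, x ∉ A → h x = 0) :
    c * ∫ x, h x ∂ν ≤ c' * ∫ x, h x ∂ν' := by
  have key : (ENNReal.ofReal c) • (ν.restrict A) ≤ (ENNReal.ofReal c') • (ν'.restrict A) := by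
    refine Measure.le_iff.2 fun B hB => ?_
    simp only [Measure.smul_apply, smul_eq_mul]
    rw [Measure.restrict_apply hB, Measure.restrict_apply hB]
    have h1 := hle (B ∩ A) (hB.inter hA) inter_subset_right
    have e1 : ENNReal.ofReal c * ν (B ∩ A) = ENNReal.ofReal (c * ν.real (B ∩ A)) := by
      rw [ENNReal.ofReal_mul hc, Measure.real, ENNReal.ofReal_toReal (measure_ne_top _ _)]
    have e2 : ENNReal.ofReal c' * ν' (B ∩ A) = ENNReal.ofReal (c' * ν'.real (B ∩ A)) := by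
      rw [ENNReal.ofReal_mul hc', Measure.real, ENNReal.ofReal_toReal (measure_ne_top _ _)]
    rw [e1, e2]
    exact ENNReal.ofReal_le_ofReal h1
  have e1 : ∫ x, h x ∂ν = ∫ x, h x ∂(ν.restrict A) := by
    symm
    exact setIntegral_eq_integral_of_forall_compl_eq_zero (fun x hx => hz x hx)
  have e2 : ∫ x, h x ∂ν' = ∫ x, h x ∂(ν'.restrict A) := by
    symm
    exact setIntegral_eq_integral_of_forall_compl_eq_zero (fun x hx => hz x hx)
  rw [e1, e2]
  have f1 : c * ∫ x, h x ∂(ν.restrict A) = ∫ x, h x ∂((ENNReal.ofReal c) • (ν.restrict A)) := by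
    rw [integral_smul_measure, ENNReal.toReal_ofReal hc, smul_eq_mul]
  have f2 : c' * ∫ x, h x ∂(ν'.restrict A) = ∫ x, h x ∂((ENNReal.ofReal c') • (ν'.restrict A)) := by
    rw [integral_smul_measure, ENNReal.toReal_ofReal hc', smul_eq_mul]
  rw [f1, f2]
  refine integral_mono_measure key (ae_of_all _ h0) ?_
  exact (F10_int (ν'.restrict A) hh).smul_measure ENNReal.ofReal_ne_top

theorem F10 : F10_stmt := by
  intro X _ _ _ _ _ _ T p g hg v hv v' hv' r hr hr1 hle heq
  set D := T.ld p with hD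
  have h0mem : (fun _ : X => (0 : ℝ)) ∈ T.C0 := T.ps_c0 (T.const_ps 0)
  have hχ := D.χ_mem
  have hd := D.d_cont
  have hvc := T.cont v hv
  have hvc' := T.cont v' hv'
  have i1 := T.fin g hg v hv
  have i2 := T.fin g hg v' hv'
  have i3 := T.fin _ h0mem v hv
  have i4 := T.fin _ h0mem v' hv'
  have i5 := T.fin _ hχ v hv
  have i6 := T.fin _ hχ v' hv'
  have i7 := T.fin v hv v hv
  have i8 := T.fin v' hv' v' hv'
  have hw : Continuous (fun x => v x - v' x) := hvc.sub hvc'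
  have hw0 : ∀ x, 0 ≤ v x - v' x := fun x => by linarith [hle x]
  have s1 := T.stokes v hv v' hv' v hv g hg
  have s2 := T.stokes v hv v' hv' v' hv' g hg
  have s3 := T.stokes v hv v' hv' v hv _ hχ
  have s4 := T.stokes v hv v' hv' v' hv' _ hχ
  have hsym := T.symm v hv v' hv'
  have p1 : 0 ≤ ∫ x, (v x - v' x) ∂T.M g v := integral_nonneg hw0
  have p2 : 0 ≤ ∫ x, (v x - v' x) ∂T.M g v' := integral_nonneg hw0
  -- comparison on the ball
  have hA : MeasurableSet {x | D.d x < D.r1} := (isOpen_lt hd continuous_const).measurableSet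
  have hz : ∀ x, x ∉ {x | D.d x < D.r1} → v x - v' x = 0 := by
    intro x hx
    have : ¬ D.d x < r := fun h => hx (lt_of_lt_of_le h hr1)
    rw [heq x this]; ring
  have c1 := F10_cmp (T.M (fun _ => 0) v) (T.M (fun x => D.χ x / D.C) v) _ hA (D.C + 1) D.C
    (by linarith [D.C_pos]) D.C_pos.le (fun B hB hBA => D.χ_big v hv B hB hBA) hw hw0 hz
  have c2 := F10_cmp (T.M (fun _ => 0) v') (T.M (fun x => D.χ x / D.C) v') _ hA (D.C + 1) D.C
    (by linarith [D.C_pos]) D.C_pos.le (fun B hB hBA => D.χ_big v' hv' B hB hBA) hw hw0 hz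
  -- the function χ
  have t1 : ∀ ν : Measure X, ∫ x, D.χ x / D.C ∂ν = (∫ x, D.χ x ∂ν) / D.C := fun ν =>
    integral_div _ _
  rw [t1, t1] at s3 s4
  have hCne : D.C ≠ 0 := D.C_pos.ne'
  have q3 : (∫ x, D.χ x ∂T.M v v) - ∫ x, D.χ x ∂T.M v' v =
      D.C * ((∫ x, (v x - v' x) ∂T.M (fun x => D.χ x / D.C) v) -
        ∫ x, (v x - v' x) ∂T.M (fun _ => 0) v) := by
    rw [← s3]; field_simp
  have q4 : (∫ x, D.χ x ∂T.M v v') - ∫ x, D.χ x ∂T.M v' v' =
      D.C * ((∫ x, (v x - v' x) ∂T.M (fun x => D.χ x / D.C) v') -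
        ∫ x, (v x - v' x) ∂T.M (fun _ => 0) v') := by
    rw [← s4]; field_simp
  rw [hsym] at q4 s2
  -- estimate of ∫ χ
  set B := {x | D.d x ≤ r} with hB
  have hBm : MeasurableSet B := (isClosed_le hd continuous_const).measurableSet
  have hU : IsOpen Bᶜ := (isClosed_le hd continuous_const).isOpen_compl
  have heqU : ∀ x ∈ Bᶜ, v x = v' x := by
    intro x hx
    refine heq x fun h => hx ?_
    exact h.le
  have hmeas : (T.M v v).restrict Bᶜ = (T.M v' v').restrict Bᶜ := by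
    refine Measure.ext fun S hS => ?_
    rw [Measure.restrict_apply hS, Measure.restrict_apply hS]
    have hSm : MeasurableSet (S ∩ Bᶜ) := hS.inter hBm.compl
    rw [T.loc v hv v' hv' v hv Bᶜ hU heqU _ hSm inter_subset_right,
      ← hsym, T.loc v hv v' hv' v' hv' Bᶜ hU heqU _ hSm inter_subset_right]
  have iχ : Integrable D.χ (T.M v v) := F10_int _ D.χ_cont
  have iχ' : Integrable D.χ (T.M v' v') := F10_int _ D.χ_cont
  have d1 : (∫ x, D.χ x ∂T.M v v) = (∫ x in B, D.χ x ∂T.M v v) + ∫ x in Bᶜ, D.χ x ∂T.M v v :=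
    (integral_add_compl hBm iχ).symm
  have d2 : (∫ x, D.χ x ∂T.M v' v') = (∫ x in B, D.χ x ∂T.M v' v') + ∫ x in Bᶜ, D.χ x ∂T.M v' v' :=
    (integral_add_compl hBm iχ').symm
  have d3 : 0 ≤ ∫ x in B, D.χ x ∂T.M v' v' := integral_nonneg D.χ_nonneg
  have d4 : (∫ x in B, D.χ x ∂T.M v v) ≤ D.K * r ^ 2 * (T.M v v).real B := by
    have h1 : (∫ x in B, D.χ x ∂T.M v v) ≤ ∫ x in B, D.K * r ^ 2 ∂T.M v v := by
      refine setIntegral_mono_on iχ.integrableOn (integrable_const _).integrableOn hBm ?_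
      intro x hx
      have hx1 : D.d x ≤ r := hx
      refine (D.χ_le x (hx1.trans hr1)).trans ?_
      have h2 := D.d_nonneg x
      have h3 : D.d x ^ 2 ≤ r ^ 2 := by nlinarith
      exact mul_le_mul_of_nonneg_left h3 D.K_pos.le
    refine h1.trans (le_of_eq ?_)
    rw [setIntegral_const, smul_eq_mul, mul_comm]
  have d5 : (∫ x in Bᶜ, D.χ x ∂T.M v v) = ∫ x in Bᶜ, D.χ x ∂T.M v' v' := by rw [hmeas]
  have hfin : (∫ x, D.χ x ∂T.M v v) - ∫ x, D.χ x ∂T.M v' v' ≤ D.K * r ^ 2 * (T.M v v).real B := by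
    rw [d1, d2, d5]; linarith
  nlinarith [s1, s2, q3, q4, c1, c2, p1, p2, hfin]

end

end MAP
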