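import Pool.Agent.helper50.MA.SpecF

set_option autoImplicit false

open MeasureTheory Set Filter Topology
open scoped ContDiff Real

namespace MAP

noncomputable section

theorem F12_int {X : Type} [TopologicalSpace X] [CompactSpace X] [MeasurableSpace X] [BorelSpace X]
    (ν : Measure X) [IsFiniteMeasure ν] {h : X → ℝ} (hh : Continuous h) : Integrable h ν :=
  hh.integrable_of_hasCompactSupport (HasCompactSupport.of_compactSpace h)

theorem F12 (h4 : F4_stmt) (h7 : F7_stmt) (h9 : F9_stmt) (h10 : F10_stmt) (h11 : F11_stmt) :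
    F12_stmt := by
  intro X _ _ _ _ _ _ T φ μ cd hD f hf hdec hneg hbd
  have hμ : IsFiniteMeasure μ := cd.fin
  have hfC : ∀ j, f j ∈ T.C0 := fun j => T.ps_c0 (hf j)
  have h0mem : (fun _ : X => (0 : ℝ)) ∈ T.C0 := T.ps_c0 (T.const_ps 0)
  set D := T.ld cd.p with hDdef
  have hd := D.d_cont
  have he0 := D.e0_pos
  have hK := D.K_pos
  have hV := T.V_pos
  -- choice of r
  obtain ⟨R0, hR0, hR1, hR2⟩ : ∃ R0 : ℝ, 0 < R0 ∧ R0 ≤ D.r1 / 2 ∧ D.K * R0 ^ 2 ≤ D.e0 / 4 := by
    refine ⟨min (D.r1 / 2) (Real.sqrt (D.e0 / (4 * D.K))), ?_, min_le_left _ _, ?_⟩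
    · exact lt_min (by linarith [D.r1_pos]) (Real.sqrt_pos.2 (by positivity))
    · have h1 : min (D.r1 / 2) (Real.sqrt (D.e0 / (4 * D.K))) ≤ Real.sqrt (D.e0 / (4 * D.K)) :=
        min_le_right _ _
      have h2 : 0 ≤ min (D.r1 / 2) (Real.sqrt (D.e0 / (4 * D.K))) :=
        le_min (by linarith [D.r1_pos]) (Real.sqrt_nonneg _)
      have h3 : min (D.r1 / 2) (Real.sqrt (D.e0 / (4 * D.K))) ^ 2 ≤ D.e0 / (4 * D.K) := by
        calc min (D.r1 / 2) (Real.sqrt (D.e0 / (4 * D.K))) ^ 2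
            ≤ (Real.sqrt (D.e0 / (4 * D.K))) ^ 2 := pow_le_pow_left₀ h2 h1 2
          _ = D.e0 / (4 * D.K) := Real.sq_sqrt (by positivity)
      calc D.K * _ ≤ D.K * (D.e0 / (4 * D.K)) := mul_le_mul_of_nonneg_left h3 hK.le
        _ = D.e0 / 4 := by field_simp
  have hcount : Set.Countable {t : ℝ | 0 < μ {x | D.d x = t}} :=
    Measure.countable_meas_level_set_pos hd.measurable
  obtain ⟨r, hrc, hr0, hrR⟩ : ∃ r ∈ {t : ℝ | 0 < μ {x | D.d x = t}}ᶜ, 0 < r ∧ r < R0 :=
    (hcount.dense_compl ℝ).exists_between hR0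
  have hmr : μ {x | D.d x = r} = 0 := by
    have : ¬ 0 < μ {x | D.d x = r} := hrc
    simpa using this
  have hrr1 : r ≤ D.r1 := by linarith [D.r1_pos]
  have hKr : D.K * r ^ 2 ≤ D.e0 / 4 := by
    refine le_trans ?_ hR2
    exact mul_le_mul_of_nonneg_left (pow_le_pow_left₀ hr0.le hrR.le 2) hK.le
  -- m0
  set m0 : ℝ := μ.real {x | D.d x < r} with hm0
  have hm0pos : 0 < m0 := by
    have h1 : 0 < μ {x | D.d x < r} :=
      cd.pos _ (isOpen_lt hd continuous_const) (by show D.d cd.p < r; rw [D.d_p]; exact hr0)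
    exact ENNReal.toReal_pos h1.ne' (measure_ne_top _ _)
  have hle : μ.real {x | D.d x ≤ r} ≤ m0 := by
    have hsub : {x | D.d x ≤ r} ⊆ {x | D.d x < r} ∪ {x | D.d x = r} := by
      intro x hx
      rcases lt_or_eq_of_le (show D.d x ≤ r from hx) with h | h
      · exact Or.inl h
      · exact Or.inr h
    have h1 : μ.real {x | D.d x ≤ r} ≤ μ.real {x | D.d x < r} + μ.real {x | D.d x = r} :=
      (measureReal_mono hsub).trans (measureReal_union_le _ _)
    have h2 : μ.real {x | D.d x = r} = 0 := by simp [Measure.real, hmr]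
    linarith
  -- constants
  set A : ℝ := 1 + 40 * T.V / m0 with hA
  have hA1 : 1 ≤ A := by
    have : 0 ≤ 40 * T.V / m0 := by positivity
    linarith
  have hA5 : 5 * T.V / A ≤ m0 / 8 := by
    have hApos : 0 < A := by linarith
    rw [div_le_iff₀ hApos]
    have : m0 / 8 * A = m0 / 8 + 5 * T.V := by rw [hA]; field_simp; ring
    rw [this]; linarith
  set δ : ℝ := m0 / 40 with hδ
  have hδpos : 0 < δ := by positivity
  set η : ℝ := D.e0 * m0 / 8 with hη
  have hηpos : 0 < η := by positivity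
  obtain ⟨Cb, hCb⟩ := hbd
  -- F9, F11, F4
  obtain ⟨n0, hn0⟩ := h9 X T φ μ cd hD f hfC hdec hneg r hr0 hrr1 A hA1 δ hδpos
  have hfin0 := T.fin _ h0mem _ h0mem
  obtain ⟨N0, hN0⟩ := h11 X (T.M (fun _ => 0) (fun _ => 0)) hfin0 f (fun j => T.cont _ (hfC j))
    (fun j => F12_int _ (T.cont _ (hfC j))) hdec.1 hneg Cb hCb (η / (A + 3)) (by positivity)
  obtain ⟨j1, m1, hj1⟩ := h4 X T φ μ hμ hD f hfC hdec (fun x j => hneg j x) (η / (6 * (A + 3)))
    (by positivity)
  obtain ⟨N, hN⟩ := exists_nat_ge (max (max (n0 : ℝ) N0) (max (2 * m1) (max 7 (9 * T.V * (A + 3) / η))))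
  have hNn0 : n0 ≤ N := by
    have : (n0 : ℝ) ≤ N := le_trans (le_trans (le_max_left _ _) (le_max_left _ _)) hN
    exact_mod_cast this
  have hNN0 : N0 ≤ N := le_trans (le_trans (le_max_right _ _) (le_max_left _ _)) hN
  have hN2 : 2 * m1 ≤ N := le_trans (le_trans (le_max_left _ _) (le_max_right _ _)) hN
  have hN3 : max 7 (9 * T.V * (A + 3) / η) ≤ N := le_trans (le_trans (le_max_right _ _) (le_max_right _ _)) hN
  have hN7 : (7 : ℝ) ≤ N := le_trans (le_max_left _ _) hN3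
  have hN9 : 9 * T.V * (A + 3) / η ≤ N := le_trans (le_max_right _ _) hN3
  have hNpos : (0 : ℝ) < N := by linarith
  obtain ⟨j0, hj0⟩ := hn0 N hNn0
  set j := max j0 j1 with hj
  -- F7
  obtain ⟨g, hg, hg1, hg2, hg3, hg4⟩ := h7 X T μ cd (f j) (hfC j) (hneg j) N A (by linarith) hA1
  have hgc := T.cont g hg
  -- the estimate of ∫ -g dμ
  set a1 := (T.M (fun _ => 0) (fun _ => 0)).real {x | f j x ≤ -((N : ℝ) / 2)} with ha1
  set a2 := (T.M (f j) (fun _ => 0)).real {x | f j x ≤ -((N : ℝ) / 2)} with ha2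
  have b1 : (N : ℝ) * a1 ≤ η / (A + 3) := hN0 N hNN0 j
  have b2 : a2 ≤ η / (6 * (A + 3)) := hj1 j (le_max_right _ _) (N / 2) (by linarith)
  have ha1n : 0 ≤ a1 := measureReal_nonneg
  have ha2n : 0 ≤ a2 := measureReal_nonneg
  have hgμ : ∫ x, -(g x) ∂μ ≤ 3 * η := by
    refine hg4.trans ?_
    have hA3 : 0 < A + 3 := by linarith
    have hfac : A * N + 3 ≤ (A + 3) * N := by nlinarith
    have hin : 0 ≤ a1 + (6 / (N : ℝ)) * a2 + 9 * T.V / (N : ℝ) ^ 2 := by positivity
    calc (A * N + 3) * (a1 + (6 / (N : ℝ)) * a2 + 9 * T.V / (N : ℝ) ^ 2)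
        ≤ ((A + 3) * N) * (a1 + (6 / (N : ℝ)) * a2 + 9 * T.V / (N : ℝ) ^ 2) :=
          mul_le_mul_of_nonneg_right hfac hin
      _ = (A + 3) * (N * a1) + (6 * (A + 3)) * a2 + (9 * T.V * (A + 3)) / N := by
          field_simp
      _ ≤ η + η + η := by
          have c1 : (A + 3) * (N * a1) ≤ η := by
            have := mul_le_mul_of_nonneg_left b1 hA3.le
            rwa [mul_div_cancel₀ _ hA3.ne'] at this
          have c2 : (6 * (A + 3)) * a2 ≤ η := by
            have := mul_le_mul_of_nonneg_left b2 (by positivity : (0 : ℝ) ≤ 6 * (A + 3))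
            rwa [mul_div_cancel₀ _ (by positivity : (6 * (A + 3)) ≠ 0)] at this
          have c3 : (9 * T.V * (A + 3)) / N ≤ η := by
            rw [div_le_iff₀ hNpos]
            rw [div_le_iff₀ hηpos] at hN9
            linarith
          linarith
      _ = 3 * η := by ring
  -- the key inequality for every j' ≥ j
  have key : ∀ j' ≥ j, D.e0 * (m0 - 3 * δ - 5 * T.V / A) - (D.e0 / 4) * (m0 + δ) ≤
      -∫ x, g x ∂T.M (f j') (f j') := by
    intro j' hj'
    obtain ⟨a, ha, haf, haeq, hup, hlow⟩ := hj0 j (le_max_left _ _) j' hj'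
    have hfa := T.fin a ha a ha
    have e1 := h10 X T cd.p g hg a ha (f j') (hfC j') r hr0 hrr1 haf haeq
    set F := {x | D.d x ≤ r ∧ f j x ≤ -(N : ℝ) ∧ Real.exp (-2 * (A * N)) ≤ cd.S x} with hF
    have hFm : MeasurableSet F := by
      refine ((isClosed_le hd continuous_const).inter
        ((isClosed_le (T.cont _ (hfC j)) continuous_const).inter
          (isClosed_le continuous_const cd.S_cont))).measurableSet
    have hga : (∫ x, g x ∂T.M a a) ≤ -(D.e0 * (T.M a a).real F) := by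
      have h1 : (∫ x, g x ∂T.M a a) ≤ ∫ x, F.indicator (fun _ => -D.e0) x ∂T.M a a := by
        refine integral_mono (F12_int _ hgc) ((integrable_const _).indicator hFm) ?_
        intro x
        by_cases hx : x ∈ F
        · have : g x = -D.e0 := hg3 x (by linarith [hx.1]) hx.2.1 hx.2.2
          show g x ≤ F.indicator (fun _ => -D.e0) x
          rw [indicator_of_mem hx, this]
        · show g x ≤ F.indicator (fun _ => -D.e0) x
          rw [indicator_of_notMem hx]
          exact hg2 x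
      refine h1.trans (le_of_eq ?_)
      rw [integral_indicator_const _ hFm, smul_eq_mul]
      ring
    have hFl : m0 - 3 * δ - 5 * T.V / A ≤ (T.M a a).real F := hlow
    have hup' : (T.M a a).real {x | D.d x ≤ r} ≤ m0 + δ := by linarith
    have hupn : 0 ≤ (T.M a a).real {x | D.d x ≤ r} := measureReal_nonneg
    have h5 : D.K * r ^ 2 * (T.M a a).real {x | D.d x ≤ r} ≤ (D.e0 / 4) * (m0 + δ) := by
      calc D.K * r ^ 2 * (T.M a a).real {x | D.d x ≤ r}
          ≤ (D.e0 / 4) * (T.M a a).real {x | D.d x ≤ r} := mul_le_mul_of_nonneg_right hKr hupn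
        _ ≤ (D.e0 / 4) * (m0 + δ) := mul_le_mul_of_nonneg_left hup' (by positivity)
    have h6 : D.e0 * (m0 - 3 * δ - 5 * T.V / A) ≤ D.e0 * (T.M a a).real F :=
      mul_le_mul_of_nonneg_left hFl he0.le
    linarith
  -- the limit
  have hlim := hD f hf hdec g hgc
  have hlim2 : D.e0 * (m0 - 3 * δ - 5 * T.V / A) - (D.e0 / 4) * (m0 + δ) ≤ -∫ x, g x ∂μ := by
    refine ge_of_tendsto hlim.neg ?_
    filter_upwards [eventually_ge_atTop j] with j' hj'
    exact key j' hj'
  rw [integral_neg] at hgμ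
  have hfinal : D.e0 * (m0 - 3 * δ - 5 * T.V / A) - (D.e0 / 4) * (m0 + δ) ≤ 3 * η := by linarith
  have h8 : D.e0 * (5 * T.V / A) ≤ D.e0 * (m0 / 8) := mul_le_mul_of_nonneg_left hA5 he0.le
  have hpos : 0 < D.e0 * m0 := by positivity
  rw [hδ, hη] at hfinal
  nlinarith

end

end MAP
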